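import Pool.Agent.AEC.StmtsS

/-!
# Squad AEC, row S_ASM: assembly of good points
-/

set_option autoImplicit false

open FirstOrder FirstOrder.Language Cardinal Set

universe u

noncomputable section

namespace Pool.Agent.AEC.S.H94

variable {L : FirstOrder.Language.{u, u}} [L.IsRelational] {κ : Cardinal.{u}} {τ : Tpl L κ}
  {T M N : Type u} [L.Structure M] [L.Structure N]

/-- the properties of the map `δ` of a good point -/
structure Gd (f : M ↪[L] N) (φ : W τ T ≃[L] M) (δ : τ.A → N) : Prop where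
  inj : Function.Injective δ
  out : ∀ a, δ a ∉ Set.range f
  loc : ∀ (n : ℕ) (R : L.Relations n) (v : Fin n → N), Structure.RelMap R v →
      (∃ i a, v i = δ a) → ∀ i, (∃ a, v i = δ a) ∨
        ∃ s : {x : τ.P // x ∉ τ.A}, s.1 ∈ τ.B ∧ v i = f (φ (W.lo s))
  rel : ∀ (n : ℕ) (R : L.Relations n) (v : Fin n → τ.P) (w : Fin n → N),
      (∀ i, (∃ h : v i ∈ τ.A, w i = δ ⟨v i, h⟩) ∨
        ∃ h : v i ∉ τ.A, v i ∈ τ.B ∧ w i = f (φ (W.lo ⟨v i, h⟩))) →
      (Structure.RelMap R v ↔ Structure.RelMap R w)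

theorem gd_adj {f : M ↪[L] N} {φ : W τ T ≃[L] M} {δ : τ.A → N} (h : Gd f φ δ) {a b : τ.A}
    (hab : adj L (a : τ.P) (b : τ.P)) : adj L (δ a) (δ b) := by
  classical
  obtain ⟨hne, n, R, v, hv, ⟨i, hi⟩, ⟨j, hj⟩⟩ := hab
  have hloc := τ.loc n R v hv ⟨i, by rw [hi]; exact a.2⟩
  let w : Fin n → N := fun k =>
    if hk : v k ∈ τ.A then δ ⟨v k, hk⟩ else f (φ (W.lo ⟨v k, hk⟩))
  have hw : ∀ k, (∃ h : v k ∈ τ.A, w k = δ ⟨v k, h⟩) ∨
      ∃ h : v k ∉ τ.A, v k ∈ τ.B ∧ w k = f (φ (W.lo ⟨v k, h⟩)) := by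
    intro k
    by_cases hk : v k ∈ τ.A
    · exact Or.inl ⟨hk, dif_pos hk⟩
    · exact Or.inr ⟨hk, (hloc k).resolve_left hk, dif_neg hk⟩
  have hR := (h.rel n R v w hw).1 hv
  have hwA : ∀ (k : Fin n) (c : τ.A), v k = c → w k = δ c := by
    intro k c hc
    have hk : v k ∈ τ.A := by rw [hc]; exact c.2
    have e : w k = δ ⟨v k, hk⟩ := dif_pos hk
    rw [e]
    congr 1
    exact Subtype.ext hc
  exact ⟨fun e => hne (congrArg Subtype.val (h.inj e)), n, R, w, hR, ⟨i, hwA i a hi⟩,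
    ⟨j, hwA j b hj⟩⟩

theorem gd_sub {f : M ↪[L] N} {φ : W τ T ≃[L] M} {δ δ' : τ.A → N} (h : Gd f φ δ)
    (h' : Gd f φ δ') {a : τ.A} (ha : δ a ∈ Set.range δ') (b : τ.A) : δ b ∈ Set.range δ' := by
  have hc := τ.conn a a.2 b b.2
  have key : ∀ c : τ.P, con L τ.Aᶜ (a : τ.P) c → ∀ hc : c ∈ τ.A, δ ⟨c, hc⟩ ∈ Set.range δ' := by
    intro c hc
    induction hc with
    | refl => intro hc; exact ha
    | tail h1 h2 ih =>
      rename_i x y
      intro hy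
      have hx : x ∈ τ.A := by
        rcases h1.cases_tail with e | ⟨z, _, hz⟩
        · rw [e]; exact a.2
        · exact not_not.1 hz.2
      obtain ⟨a', ha'⟩ := ih hx
      have hadj : adj L (δ ⟨x, hx⟩) (δ ⟨y, hy⟩) := gd_adj h h2.1
      obtain ⟨_, n, R, v, hv, ⟨i, hi⟩, ⟨j, hj⟩⟩ := hadj
      rcases h'.loc n R v hv ⟨i, a', by rw [hi, ← ha']⟩ j with ⟨b', hb'⟩ | ⟨s, _, hs⟩
      · exact ⟨b', by rw [← hb', hj]⟩
      · exact absurd ⟨_, by rw [← hj]; exact hs.symm⟩ (h.out ⟨y, hy⟩)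
  exact key b hc b.2

theorem gd_range {f : M ↪[L] N} {φ : W τ T ≃[L] M} {δ δ' : τ.A → N} (h : Gd f φ δ)
    (h' : Gd f φ δ') {a a' : τ.A} (ha : δ a = δ' a') : Set.range δ = Set.range δ' := by
  apply Set.Subset.antisymm
  · rintro _ ⟨b, rfl⟩
    exact gd_sub h h' ⟨a', ha.symm⟩ b
  · rintro _ ⟨b, rfl⟩
    exact gd_sub h' h ⟨a, ha⟩ b

/-- the new components -/
def UU (f : M ↪[L] N) (φ : W τ T ≃[L] M) : Type u := {D : Set N // ∃ δ, Gd f φ δ ∧ Set.range δ = D}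

def dl {f : M ↪[L] N} {φ : W τ T ≃[L] M} (u : UU f φ) : τ.A → N := u.2.choose

theorem dl_gd {f : M ↪[L] N} {φ : W τ T ≃[L] M} (u : UU f φ) : Gd f φ (dl u) :=
  u.2.choose_spec.1

theorem dl_range {f : M ↪[L] N} {φ : W τ T ≃[L] M} (u : UU f φ) : Set.range (dl u) = u.1 :=
  u.2.choose_spec.2

/-- the isomorphism as a map -/
def ff (f : M ↪[L] N) (φ : W τ T ≃[L] M) : W τ (T ⊕ UU f φ) → N
  | Sum.inl p => f (φ (W.lo p))
  | Sum.inr (Sum.inl t, a) => f (φ (W.hi t a))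
  | Sum.inr (Sum.inr u, a) => dl u a

theorem ff_inl (f : M ↪[L] N) (φ : W τ T ≃[L] M) (x : W τ T) :
    ff f φ (W.fn Sum.inl x) = f (φ x) := by
  rcases x with x | ⟨t, a⟩ <;> rfl

theorem ff_cases (f : M ↪[L] N) (φ : W τ T ≃[L] M) (x : W τ (T ⊕ UU f φ)) :
    (∃ x' : W τ T, x = W.fn Sum.inl x') ∨ ∃ (u : UU f φ) (a : τ.A), x = W.hi (Sum.inr u) a := by
  rcases x with x | ⟨t | u, a⟩
  · exact Or.inl ⟨W.lo x, rfl⟩
  · exact Or.inl ⟨W.hi t a, rfl⟩
  · exact Or.inr ⟨u, a, rfl⟩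

theorem ff_inj (f : M ↪[L] N) (φ : W τ T ≃[L] M) : Function.Injective (ff f φ) := by
  intro x y hxy
  rcases ff_cases f φ x with ⟨x', rfl⟩ | ⟨u, a, rfl⟩ <;>
    rcases ff_cases f φ y with ⟨y', rfl⟩ | ⟨u', a', rfl⟩
  · rw [ff_inl, ff_inl] at hxy
    rw [φ.injective (f.injective hxy)]
  · rw [ff_inl] at hxy
    exact absurd ⟨_, hxy⟩ ((dl_gd u').out a')
  · rw [ff_inl] at hxy
    exact absurd ⟨_, hxy.symm⟩ ((dl_gd u).out a)
  · have h1 : dl u a = dl u' a' := hxy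
    have h2 : u = u' := by
      apply Subtype.ext
      rw [← dl_range u, ← dl_range u']
      exact gd_range (dl_gd u) (dl_gd u') h1
    subst h2
    rw [(dl_gd u).inj h1]

theorem ff_surj (f : M ↪[L] N) (φ : W τ T ≃[L] M)
    (hG : ∀ y, y ∉ Set.range f → Good τ f φ y) : Function.Surjective (ff f φ) := by
  intro y
  by_cases hy : y ∈ Set.range f
  · obtain ⟨m, rfl⟩ := hy
    obtain ⟨x, rfl⟩ := φ.surjective m
    exact ⟨W.fn Sum.inl x, ff_inl f φ x⟩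
  · obtain ⟨δ, h1, ⟨a, ha⟩, h2, h3, h4⟩ := hG y hy
    have hδ : Gd f φ δ := ⟨h1, h2, h3, h4⟩
    let u : UU f φ := ⟨Set.range δ, δ, hδ, rfl⟩
    have hyu : y ∈ Set.range (dl u) := by
      rw [dl_range u]
      exact ⟨a, ha⟩
    obtain ⟨b, hb⟩ := hyu
    exact ⟨W.hi (Sum.inr u) b, hb⟩

theorem ff_new (f : M ↪[L] N) (φ : W τ T ≃[L] M) (u : UU f φ) {n : ℕ} (R : L.Relations n)
    (v : Fin n → W τ (T ⊕ UU f φ))
    (hv : ∀ j, (∃ a, v j = W.hi (Sum.inr u) a) ∨ ∃ s : {x : τ.P // x ∉ τ.A}, s.1 ∈ τ.B ∧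
      v j = W.lo s) :
    (∀ i j t t', (v i).tag = some t → (v j).tag = some t' → t = t') ∧
    (Structure.RelMap R (fun i => (v i).pr) ↔ Structure.RelMap R (fun i => ff f φ (v i))) := by
  constructor
  · have h1 : ∀ i t, (v i).tag = some t → t = Sum.inr u := by
      intro i t ht
      rcases hv i with ⟨a, ha⟩ | ⟨s, _, hs⟩
      · rw [ha] at ht
        exact (Option.some.inj ht).symm
      · rw [hs] at ht
        exact absurd ht (by intro h; cases h)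
    intro i j t t' hi hj
    rw [h1 i t hi, h1 j t' hj]
  · apply (dl_gd u).rel
    intro i
    rcases hv i with ⟨a, ha⟩ | ⟨s, hsB, hs⟩
    · left
      rw [ha]
      exact ⟨a.2, rfl⟩
    · right
      rw [hs]
      exact ⟨s.2, hsB, rfl⟩

theorem ff_rel (f : M ↪[L] N) (φ : W τ T ≃[L] M) {n : ℕ} (R : L.Relations n)
    (v : Fin n → W τ (T ⊕ UU f φ)) :
    Structure.RelMap R (fun i => ff f φ (v i)) ↔ Structure.RelMap R v := by
  by_cases hA : ∃ (i : Fin n) (u : UU f φ) (a : τ.A), v i = W.hi (Sum.inr u) a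
  · obtain ⟨i, u, a, hi⟩ := hA
    constructor
    · intro h
      have hloc := (dl_gd u).loc n R _ h ⟨i, a, by rw [hi]; rfl⟩
      have hv : ∀ j, (∃ a, v j = W.hi (Sum.inr u) a) ∨ ∃ s : {x : τ.P // x ∉ τ.A}, s.1 ∈ τ.B ∧
          v j = W.lo s := by
        intro j
        rcases hloc j with ⟨b, hb⟩ | ⟨s, hsB, hs⟩
        · exact Or.inl ⟨b, ff_inj f φ hb⟩
        · exact Or.inr ⟨s, hsB, ff_inj f φ hs⟩
      obtain ⟨h1, h2⟩ := ff_new f φ u R v hv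
      exact ⟨h1, h2.2 h⟩
    · rintro ⟨h1, h2⟩
      have hloc := τ.loc n R _ h2 ⟨i, by rw [hi]; exact a.2⟩
      have hv : ∀ j, (∃ a, v j = W.hi (Sum.inr u) a) ∨ ∃ s : {x : τ.P // x ∉ τ.A}, s.1 ∈ τ.B ∧
          v j = W.lo s := by
        intro j
        have hj := hloc j
        have h1j := h1 j i
        obtain ⟨x, hx⟩ : ∃ x, x = v j := ⟨_, rfl⟩
        rw [← hx] at hj h1j ⊢
        rcases x with x | ⟨t, b⟩
        · right
          exact ⟨x, hj.resolve_left x.2, rfl⟩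
        · left
          have h3 : t = Sum.inr u := h1j t (Sum.inr u) rfl (by rw [hi]; rfl)
          rw [h3]
          exact ⟨b, rfl⟩
      exact (ff_new f φ u R v hv).2.1 h2
  · have hex : ∀ i, ∃ x' : W τ T, v i = W.fn Sum.inl x' := by
      intro i
      rcases ff_cases f φ (v i) with h | ⟨u, a, h⟩
      · exact h
      · exact absurd ⟨i, u, a, h⟩ hA
    choose v₁ hv₁ using hex
    have e1 : (fun i => ff f φ (v i)) = fun i => f (φ (v₁ i)) := by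
      funext i
      rw [hv₁ i, ff_inl]
    have e2 : v = fun i => W.fn Sum.inl (v₁ i) := funext hv₁
    rw [e1]
    conv_rhs => rw [e2]
    rw [W.rel_fn Sum.inl_injective]
    exact (f.map_rel R (fun i => φ (v₁ i))).trans (φ.map_rel R v₁)

theorem s_asm : AsmStmt.{u} := by
  intro L _ κ τ T M N _ _ f φ hG
  refine ⟨T ⊕ UU f φ, ⟨Sum.inl, Sum.inl_injective⟩,
    { toEquiv := Equiv.ofBijective (ff f φ) ⟨ff_inj f φ, ff_surj f φ hG⟩
      map_fun' := fun f _ => isEmptyElim f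
      map_rel' := fun R v => ff_rel f φ R v }, ?_⟩
  intro x
  exact ff_inl f φ x

end Pool.Agent.AEC.S.H94
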