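import Pool.Agent.AEC.StmtsS

/-!
# Squad AEC, row S_BGR: small invariant sets do not grow
-/

set_option autoImplicit false

open FirstOrder FirstOrder.Language Cardinal Set

universe u

namespace Pool.Agent.AEC.S.H94

open Pool.Agent.AEC.AEC

theorem s_bgr (sta : StaStmt.{u}) : BgrStmt.{u} := by
  intro L κ K l Φ hl hcat hcard heqv hmono A N f hA hN
  obtain ⟨B, e, hB, hst⟩ := sta L κ K l A (fun B _ => Φ B) hl hA (fun B _ hB => hcard B hB)
    (fun B C _ f hB hC => hmono B C f hB hC)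
  obtain ⟨θ⟩ := hcat.2 B A hB hA
  have h1 : Φ N = (f.comp (Hom.ofEquiv θ)) '' Φ B := hst N (f.comp (Hom.ofEquiv θ)) hN
  have h2 : θ '' Φ B = Φ A := heqv B A θ hB
  rw [h1, ← h2, Set.image_image]
  rfl

end Pool.Agent.AEC.S.H94
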